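import Pool.Agent.Y131.LM.Seq

/-!
# Closed normal subgroups with property Z_m of locally minimal precompact groups

A closed normal subgroup with property `Z_m` of a Hausdorff precompact locally minimal group
embeds in a unitary group `U(n)`, and is a compact Lie group if it is countably compact (even
pseudocompact).  This contains the full (positive) answer to Q1 and Q2.
-/

set_option autoImplicit false

open Pool.Agent.Y131.LM

namespace Pool.Agent.Results.MP_55ec57_gt.LocallyMinimalNormal

/-- **Main theorem.**  (A) Let `G` be a Hausdorff topological group which is precompact and
locally minimal, and `H` a closed normal subgroup of `G` all of whose closed zero-dimensional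
metrizable subgroups are discrete.  Then `H` is topologically isomorphic to a subgroup of a
unitary group `U(n)`; and if `H` is pseudocompact, then `H` is a compact Lie group.
(B) Every pseudocompact locally minimal Hausdorff group whose closed zero-dimensional metrizable
subgroups are discrete is a compact Lie group.
(C) The question: every countably compact minimal Hausdorff group with property `Z` is a compact
Lie group. -/
theorem result :
    (∀ (G : Type) [Group G] [TopologicalSpace G] [IsTopologicalGroup G] [T2Space G],
      Precpt G → LocMin G → ∀ H : Subgroup G, H.Normal → IsClosed (H : Set G) → PropZm H →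
        Linear H ∧ (Pseudocpt H → CptLie H)) ∧
    (∀ (G : Type) [Group G] [TopologicalSpace G] [IsTopologicalGroup G] [T2Space G],
      Pseudocpt G → LocMin G → PropZm G → CptLie G) ∧
    (∀ (G : Type) [Group G] [TopologicalSpace G] [IsTopologicalGroup G] [T2Space G],
      CountablyCpt G → Minl G → PropZ G → CptLie G) := by
  refine ⟨?_, ?_, ?_⟩
  · intro G _ _ _ _ hP hm H hHn hH hZ
    have h := normal_linear hP hm H hHn hH hZ
    exact ⟨h, h.lie_ps⟩
  · intro G _ _ _ _ hps hm hZ
    exact (self_linear (precpt_of_pseudo hps) hm hZ).lie_ps hps
  · intro G _ _ _ _ hcc hmin hZ
    have hps := pseudo_of_cc hcc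
    exact (self_linear (precpt_of_pseudo hps) (locMin_of_minl hmin)
      (fun S h1 h2 _ => hZ S h1 h2)).lie_ps hps

end Pool.Agent.Results.MP_55ec57_gt.LocallyMinimalNormal
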